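import Pool.Agent.helper60.EPT.SpecS

/-!
# Row sr:FRT
-/

set_option autoImplicit false

namespace Pool.Agent.EPT

open D

/-- one step with the parameters -/
def FRT_f (s : D) : D := cons s.fst (frn s.fst.fst.toList.length s.fst.snd.toList.length s.snd)

theorem FRT_key (x : D) (i : ℕ) : FRT_f^[i] (cons x.snd (cons (F0 x.fst) nil)) = cons x.snd (frk x i) := by
  induction i with
  | zero => rfl
  | succ i ih =>
    rw [Function.iterate_succ_apply', ih]
    unfold FRT_f frk
    rw [fst_cons, snd_cons, Function.iterate_succ_apply']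

theorem FRT (hC : Cal) (hL : CalL) (hPBC : PBC_stmt) (hRBA : RBA_stmt) (hRCG : RCG_stmt) (hRCO : RCO_stmt) (hRIT : RIT_stmt) (hDFB : DFB_stmt) (hDFD : DFD_stmt) : FRT_stmt := by
  have hS : PB S1 size := hPBC.2.2.2.2.1 S1 size S1 (hPBC.2.1 S1) fun x => by
    unfold S1
    omega
  have lift : ∀ f : D → D, FP f → RT S1 f := fun f hf => hRCG.2.2.1 size S1 f hf hS
  have hf : FP FRT_f := hC.cons _ _ (hC.fst _ hC.id) hDFB
  have hn : RT S1 fun x => tmr x.fst x.snd.fst :=
    lift _ (hC.comp (fun x => tmr x.fst x.snd) (fun x => cons x.fst x.snd.fst) hDFD.2.2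
      (hC.cons _ _ (hC.fst _ hC.id) (hC.fst _ (hC.snd _ hC.id))))
  have ha : RT S1 fun x => cons x.snd (cons (F0 x.fst) nil) :=
    lift _ (hC.cons _ _ (hC.snd _ hC.id) (hC.cons _ _ (hC.comp F0 (fun x => x.fst) hDFD.1 (hC.fst _ hC.id)) (hC.const nil)))
  have main := hRIT S1 hS FRT_f (fun x => tmr x.fst x.snd.fst) (fun x => cons x.snd (cons (F0 x.fst) nil)) hf hn ha
    ⟨fun x => S1 x + 1, (hPBC.2.2.1 S1 S1 (fun _ => 1) (hPBC.2.1 S1) (hPBC.1 S1 1)).1, by
      intro x i hi
      rw [FRT_key, size_cons]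
      have h1 : (frk x i).size ≤ ∑ n ∈ Finset.range ((tmr x.fst x.snd.fst).toList.length + 1), (frk x n).size :=
        Finset.single_le_sum (f := fun n => (frk x n).size) (fun _ _ => Nat.zero_le _)
          (Finset.mem_range.2 (Nat.lt_succ_of_le hi))
      have h2 := size_snd x
      show _ ≤ S1 x + 1
      unfold S1
      omega⟩
  have h3 := hRCG.2.1 S1 snd _ hRBA.2.2.1 main
  have h4 : (fun x => snd (FRT_f^[((fun x : D => tmr x.fst x.snd.fst) x).toList.length] ((fun x : D => cons x.snd (cons (F0 x.fst) nil)) x))) = frt := by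
    funext x
    show snd (FRT_f^[(tmr x.fst x.snd.fst).toList.length] (cons x.snd (cons (F0 x.fst) nil))) = frt x
    rw [FRT_key]
    rfl
  rw [h4] at h3
  exact h3

end Pool.Agent.EPT
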